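import Mathlib

set_option autoImplicit false

namespace Pool.Agent.Results.MP_472c23_co.Ten

open Polynomial

/-- `1 - q^k`. -/
noncomputable def u (k : ℕ) : ℤ[X] := 1 - X ^ k

/-- `[m]! = (1 - q)(1 - q^2)...(1 - q^m)`. -/
noncomputable def fac (m : ℕ) : ℤ[X] := ∏ i ∈ Finset.range m, u (i + 1)

/-- The rational function `a / b` times `F_n` is an integer polynomial. -/
def IsPoly (n : ℕ) (a b : ℤ[X]) : Prop :=
  ∃ P : ℤ[X], P * (b * (fac (3 * n) * fac (2 * n) ^ 2)) = a * (fac (6 * n) * fac n)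

def f2 (m : ℕ) : ℤ := ∏ i ∈ Finset.range m, (1 - 2 ^ (i + 1))

theorem ev (m : ℕ) : (fac m).eval 2 = f2 m := by
  simp [fac, f2, u, eval_prod]

theorem result : ∃ n : ℕ, 2 ≤ n ∧
    ¬ IsPoly n (u 3 * u 5 * u 7) (u (2 * n + 3) * u (2 * n + 5) * u (2 * n + 7)) ∧
    ¬ IsPoly n (u 3 ^ 2 * u 5 * u 7)
      (u (2 * n + 1) * u (2 * n + 3) * u (2 * n + 5) * u (2 * n + 7)) := by
  refine ⟨10, by norm_num, ?_, ?_⟩
  · rintro ⟨P, h⟩
    have := congrArg (eval 2) h
    simp only [eval_mul, eval_pow, ev, u, eval_sub, eval_one, eval_X] at this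
    exact absurd (Dvd.intro_left _ this) (by decide +kernel)
  · rintro ⟨P, h⟩
    have := congrArg (eval 2) h
    simp only [eval_mul, eval_pow, ev, u, eval_sub, eval_one, eval_X] at this
    exact absurd (Dvd.intro_left _ this) (by decide +kernel)

end Pool.Agent.Results.MP_472c23_co.Ten
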